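import Pool.Agent.H41.AL.Defs2

set_option autoImplicit false

namespace Pool.Agent.H501.AG

open Equiv Finset
open Pool.Agent.H41.AL

/-- the state after `i` stages -/
structure St {V : Type} [Fintype V] [DecidableEq V] (G : SimpleGraph V) [DecidableRel G.Adj]
    {n K : ℕ} (m : ℕ) (ρ : V → Fin K) (σ : V → V → Perm (Fin n)) (A : ℕ → ℝ) (τ : ℝ) (i : ℕ)
    (φ : V → Perm (Fin n)) (W : V → Mx n) : Prop where
  pr : ∀ u v, G.Adj u v → (ρ u : ℕ) < i → (ρ v : ℕ) < i → ∀ j, φ v j ≠ σ u v (φ u j)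
  ent : ∀ w, i ≤ (ρ w : ℕ) → ∀ j c, 0 ≤ W w j c ∧ W w j c ≤ A i
  row : ∀ w, i ≤ (ρ w : ℕ) → ∀ j, |rowS (W w) j - n| ≤ i * τ
  col : ∀ w, i ≤ (ρ w : ℕ) → ∀ c, |colS (W w) c - n| ≤ i * τ
  cd : ∀ w, i ≤ (ρ w : ℕ) → ∀ j j', j ≠ j' → cod (W w) j j' ≤ n + i * τ
  bad : ∀ w, i ≤ (ρ w : ℕ) → {p : Fin n × Fin n | W w p.1 p.2 ≠ 0 ∧
    ∃ u, G.Adj u w ∧ (ρ u : ℕ) < i ∧ σ u w (φ u p.1) = p.2}.ncard ≤
      3 * m * {u : V | G.Adj u w ∧ (ρ u : ℕ) < i}.ncard

theorem st_zero {V : Type} [Fintype V] [DecidableEq V] (G : SimpleGraph V) [DecidableRel G.Adj]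
    {n K : ℕ} (m : ℕ) (ρ : V → Fin K) (σ : V → V → Perm (Fin n)) (A : ℕ → ℝ) (τ : ℝ)
    (hA : A 0 = 1) : St G m ρ σ A τ 0 (fun _ => 1) (fun _ _ _ => 1) where
  pr u v _ h := absurd h (Nat.not_lt_zero _)
  ent w _ j c := ⟨zero_le_one, by rw [hA]⟩
  row w _ j := by simp [rowS]
  col w _ j := by simp [colS]
  cd w _ j j' _ := by simp [cod]
  bad w _ := by
    have : {p : Fin n × Fin n | (1 : ℝ) ≠ 0 ∧
        ∃ u, G.Adj u w ∧ (ρ u : ℕ) < 0 ∧ σ u w ((1 : Perm (Fin n)) p.1) = p.2} = ∅ := by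
      ext p
      simp
    rw [this]
    simp

theorem cnt_le_D {V : Type} [Fintype V] [DecidableEq V] (G : SimpleGraph V) [DecidableRel G.Adj]
    {K D : ℕ} (ρ : V → Fin K) (h : ∀ v, (Finset.univ.filter (G.Adj v)).card ≤ D) (w : V) (i : ℕ) :
    {u : V | G.Adj u w ∧ (ρ u : ℕ) < i}.ncard ≤ D := by
  calc {u : V | G.Adj u w ∧ (ρ u : ℕ) < i}.ncard
      ≤ ((Finset.univ.filter (G.Adj w) : Finset V) : Set V).ncard := by
        refine Set.ncard_le_ncard (fun u hu => ?_) (Finset.finite_toSet _)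
        have h1 : G.Adj w u := hu.1.symm
        simpa using h1
    _ = (Finset.univ.filter (G.Adj w)).card := Set.ncard_coe_finset _
    _ ≤ D := h w

theorem cnt_le_id {V : Type} [Fintype V] [DecidableEq V] (G : SimpleGraph V) [DecidableRel G.Adj]
    {K d : ℕ} (ρ : V → Fin K)
    (h : ∀ v i, (Finset.univ.filter fun u => G.Adj v u ∧ ρ u = i).card ≤ d) (w : V) (i : ℕ)
    (hi : i ≤ K) : {u : V | G.Adj u w ∧ (ρ u : ℕ) < i}.ncard ≤ i * d := by
  induction i with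
  | zero =>
    have : {u : V | G.Adj u w ∧ (ρ u : ℕ) < 0} = ∅ := by
      ext u
      simp
    rw [this]
    simp
  | succ i ih =>
    have h1 := ih (by omega)
    have h2 := h w ⟨i, by omega⟩
    have h3 : {u : V | G.Adj u w ∧ (ρ u : ℕ) < i + 1} ⊆ {u : V | G.Adj u w ∧ (ρ u : ℕ) < i} ∪
        ((Finset.univ.filter fun u => G.Adj w u ∧ ρ u = ⟨i, by omega⟩ : Finset V) : Set V) := by
      intro u hu
      obtain ⟨hu1, hu2⟩ := hu
      by_cases hui : (ρ u : ℕ) < i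
      · exact Or.inl ⟨hu1, hui⟩
      · right
        have h4 : ρ u = ⟨i, by omega⟩ := Fin.ext (by simp; omega)
        rw [Finset.mem_coe, Finset.mem_filter]
        exact ⟨Finset.mem_univ _, hu1.symm, h4⟩
    calc {u : V | G.Adj u w ∧ (ρ u : ℕ) < i + 1}.ncard
        ≤ _ := Set.ncard_le_ncard h3 (Set.toFinite _)
      _ ≤ _ := Set.ncard_union_le _ _
      _ ≤ i * d + d := by
        rw [Set.ncard_coe_finset]
        exact Nat.add_le_add h1 h2
      _ = (i + 1) * d := by ring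

/-- the allowed cells -/
def Bv {V : Type} (G : SimpleGraph V) {n K : ℕ} (ρ : V → Fin K) (σ : V → V → Perm (Fin n)) (i : ℕ)
    (φ : V → Perm (Fin n)) (v : V) (j c : Fin n) : Prop :=
  ∀ u, G.Adj u v → (ρ u : ℕ) < i → σ u v (φ u j) ≠ c

theorem bv_row {V : Type} [Fintype V] (G : SimpleGraph V) {n K : ℕ} (ρ : V → Fin K)
    (σ : V → V → Perm (Fin n)) (i : ℕ) (φ : V → Perm (Fin n)) (v : V) (j : Fin n) {e : ℕ}
    (he : {u : V | G.Adj u v ∧ (ρ u : ℕ) < i}.ncard ≤ e) : n ≤ {c | Bv G ρ σ i φ v j c}.ncard + e := by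
  have h1 : {c | Bv G ρ σ i φ v j c}ᶜ ⊆
      (fun u => σ u v (φ u j)) '' {u : V | G.Adj u v ∧ (ρ u : ℕ) < i} := by
    intro c hc
    have hc' : ¬ Bv G ρ σ i φ v j c := hc
    unfold Bv at hc'
    push Not at hc'
    obtain ⟨u, hu1, hu2, hu3⟩ := hc'
    exact ⟨u, ⟨hu1, hu2⟩, hu3⟩
  have h2 := (Set.ncard_le_ncard h1 (Set.toFinite _)).trans (Set.ncard_image_le (Set.toFinite _))
  have h3 := Set.ncard_add_ncard_compl {c | Bv G ρ σ i φ v j c}
  rw [Nat.card_fin] at h3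
  omega

theorem bv_col {V : Type} [Fintype V] (G : SimpleGraph V) {n K : ℕ} (ρ : V → Fin K)
    (σ : V → V → Perm (Fin n)) (i : ℕ) (φ : V → Perm (Fin n)) (v : V) (c : Fin n) {e : ℕ}
    (he : {u : V | G.Adj u v ∧ (ρ u : ℕ) < i}.ncard ≤ e) : n ≤ {j | Bv G ρ σ i φ v j c}.ncard + e := by
  have h1 : {j | Bv G ρ σ i φ v j c}ᶜ ⊆
      (fun u => (φ u)⁻¹ ((σ u v)⁻¹ c)) '' {u : V | G.Adj u v ∧ (ρ u : ℕ) < i} := by
    intro j hj
    have hc' : ¬ Bv G ρ σ i φ v j c := hj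
    unfold Bv at hc'
    push Not at hc'
    obtain ⟨u, hu1, hu2, hu3⟩ := hc'
    refine ⟨u, ⟨hu1, hu2⟩, ?_⟩
    change (φ u)⁻¹ ((σ u v)⁻¹ c) = j
    rw [← hu3]
    simp
  have h2 := (Set.ncard_le_ncard h1 (Set.toFinite _)).trans (Set.ncard_image_le (Set.toFinite _))
  have h3 := Set.ncard_add_ncard_compl {j | Bv G ρ σ i φ v j c}
  rw [Nat.card_fin] at h3
  omega

theorem q_ge {L : ℕ} (hL : 3 ≤ L) : 1 ≤ (L : ℝ) / (L - 1) := by
  have : (3 : ℝ) ≤ L := by exact_mod_cast hL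
  rw [one_le_div (by linarith)]
  linarith

theorem fac_bd {n L : ℕ} (hL : 3 ≤ L) (M : Fin L → Perm (Fin n)) (k : Fin L) (g : Perm (Fin n))
    (j c : Fin n) : 0 ≤ fac M k g j c ∧ fac M k g j c ≤ (L : ℝ) / (L - 1) := by
  have h := q_ge hL
  unfold fac
  split_ifs
  · exact ⟨le_refl _, by linarith⟩
  · exact ⟨by linarith, le_refl _⟩
  · exact ⟨zero_le_one, h⟩

theorem fac_ne {n L : ℕ} {M : Fin L → Perm (Fin n)} {k : Fin L} {g : Perm (Fin n)}
    {j c : Fin n} (h : fac M k g j c ≠ 0) : M k j ≠ g c := by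
  intro h1
  apply h
  unfold fac
  rw [if_pos h1]

theorem prod_bd {V : Type} {n L d : ℕ} (hL : 3 ≤ L) (N : Finset V) (hN : N.card ≤ d)
    (M : V → Fin L → Perm (Fin n)) (k : V → Fin L) (g : V → Perm (Fin n)) (j c : Fin n) :
    0 ≤ ∏ u ∈ N, fac (M u) (k u) (g u) j c ∧
      ∏ u ∈ N, fac (M u) (k u) (g u) j c ≤ ((L : ℝ) / (L - 1)) ^ d := by
  refine ⟨Finset.prod_nonneg fun u _ => (fac_bd hL _ _ _ _ _).1, ?_⟩
  calc ∏ u ∈ N, fac (M u) (k u) (g u) j c ≤ ∏ _u ∈ N, ((L : ℝ) / (L - 1)) :=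
        Finset.prod_le_prod (fun u _ => (fac_bd hL _ _ _ _ _).1) fun u _ => (fac_bd hL _ _ _ _ _).2
    _ = ((L : ℝ) / (L - 1)) ^ N.card := Finset.prod_const _
    _ ≤ _ := pow_le_pow_right₀ (q_ge hL) hN

theorem step (hs : S_STAGE) (hc : S_CLASS) {V : Type} [Fintype V] [DecidableEq V]
    (G : SimpleGraph V) [DecidableRel G.Adj] (n K D d m β : ℕ) (ρ : V → Fin K)
    (σ : V → V → Perm (Fin n)) (L : ℕ → ℕ) (A : ℕ → ℝ) (Am τ η : ℝ)
    (hσ : ∀ u v, G.Adj u v → σ v u = (σ u v)⁻¹) (hD : 1 ≤ D)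
    (hdeg : ∀ v, (Finset.univ.filter (G.Adj v)).card ≤ D)
    (hcl : ∀ v i, (Finset.univ.filter fun u => G.Adj v u ∧ ρ u = i).card ≤ d)
    (hA0 : A 0 = 1) (hL : ∀ i, i < K → 3 ≤ L i)
    (hA : ∀ i, i < K → A i * ((L i : ℝ) / (L i - 1)) ^ d ≤ A (i + 1)) (hAm : ∀ i, i ≤ K → A i ≤ Am)
    (hτ : 0 ≤ τ) (hτ2 : τ ≤ 10 * Am ^ 2 * (d + 1))
    (hex : 5 * (n : ℝ) ^ 2 * Real.exp (-(τ ^ 2 / (100 * Am ^ 4 * (d + 1)))) * (16 * (d + 1) * D) ≤ 1)
    (hm : ∀ i, i < K → 16 * (d + 1) ^ 3 * n ≤ m * L i) (hKτ : K * τ ≤ η * n)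
    (hloc : ∀ i, i < K → ∀ (W : Mx n) (B : Fin n → Fin n → Prop), Good n η (A i) W →
      {p : Fin n × Fin n | W p.1 p.2 ≠ 0 ∧ ¬ B p.1 p.2}.ncard ≤ 3 * m * D →
      (∀ j, n ≤ {c | B j c}.ncard + i * d) → (∀ c, n ≤ {j | B j c}.ncard + i * d) →
      Loc2 n (L i) d m β B)
    (i : ℕ) (hi : i < K) (φ : V → Perm (Fin n)) (W : V → Mx n) (st : St G m ρ σ A τ i φ W) :
    ∃ (φ' : V → Perm (Fin n)) (W' : V → Mx n), St G m ρ σ A τ (i + 1) φ' W' := by
  classical
  have hiK : (i : ℝ) ≤ K := by exact_mod_cast hi.le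
  have hLi := hL i hi
  have hq := q_ge hLi
  set U : Finset V := Finset.univ.filter fun v => (ρ v : ℕ) = i with hU
  set X : Finset V := Finset.univ.filter fun v => i < (ρ v : ℕ) with hX
  have memU : ∀ v, v ∈ U ↔ (ρ v : ℕ) = i := fun v => by simp [hU]
  have memX : ∀ v, v ∈ X ↔ i < (ρ v : ℕ) := fun v => by simp [hX]
  have hUd : ∀ v, (U.filter fun u => G.Adj v u).card ≤ d := by
    intro v
    refine le_trans (Finset.card_le_card fun u hu => ?_) (hcl v ⟨i, hi⟩)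
    rw [Finset.mem_filter, memU] at hu
    rw [Finset.mem_filter]
    exact ⟨Finset.mem_univ _, hu.2, Fin.ext hu.1⟩
  -- local structure
  have hLoc : ∀ v ∈ U, Loc2 n (L i) d m β (Bv G ρ σ i φ v) := by
    intro v hv
    have hvi : i ≤ (ρ v : ℕ) := ((memU v).1 hv).ge
    have hiτ : (i : ℝ) * τ ≤ η * n := le_trans (mul_le_mul_of_nonneg_right hiK hτ) hKτ
    refine hloc i hi (W v) _ ⟨st.ent v hvi, fun j => (st.row v hvi j).trans hiτ,
      fun c => (st.col v hvi c).trans hiτ, fun j j' hjj => ?_⟩ ?_ ?_ ?_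
    · have := st.cd v hvi j j' hjj
      linarith
    · have h1 := st.bad v hvi
      have h2 := cnt_le_D G ρ hdeg v i
      have h3 : {p : Fin n × Fin n | W v p.1 p.2 ≠ 0 ∧ ¬ Bv G ρ σ i φ v p.1 p.2} ⊆
          {p : Fin n × Fin n | W v p.1 p.2 ≠ 0 ∧
            ∃ u, G.Adj u v ∧ (ρ u : ℕ) < i ∧ σ u v (φ u p.1) = p.2} := by
        rintro p ⟨hp1, hp2⟩
        refine ⟨hp1, ?_⟩
        unfold Bv at hp2
        push Not at hp2
        exact hp2
      calc _ ≤ _ := Set.ncard_le_ncard h3 (Set.toFinite _)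
        _ ≤ _ := h1
        _ ≤ 3 * m * D := Nat.mul_le_mul_left _ h2
    · exact fun j => bv_row G ρ σ i φ v j (cnt_le_id G ρ hcl v i hi.le)
    · exact fun c => bv_col G ρ σ i φ v c (cnt_le_id G ρ hcl v i hi.le)
  -- the families
  have hMex : ∀ v, ∃ M : Fin (L i) → Perm (Fin n), v ∈ U → Disj M ∧ ∀ k j, Bv G ρ σ i φ v j (M k j) := by
    intro v
    by_cases hv : v ∈ U
    · obtain ⟨⟨M, hM1, hM2⟩, _⟩ := hLoc v hv
      exact ⟨M, fun _ => ⟨hM1, hM2⟩⟩
    · exact ⟨fun _ => 1, fun h => absurd h hv⟩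
  choose M hM using hMex
  have hAm1 : 1 ≤ Am := by rw [← hA0]; exact hAm 0 (by omega)
  have hXent : ∀ w ∈ X, ∀ j c, 0 ≤ W w j c ∧ W w j c * ((L i : ℝ) / (L i - 1)) ^ d ≤ A (i + 1) := by
    intro w hw j c
    obtain ⟨h1, h2⟩ := st.ent w ((memX w).1 hw).le j c
    refine ⟨h1, le_trans (mul_le_mul_of_nonneg_right h2 (by positivity)) (hA i hi)⟩
  obtain ⟨k, hk1, hk2⟩ := hs V G n (L i) D d m U X σ M W Am τ hLi hD (fun u hu => (hM u hu).1) hUd hdeg
    (fun w hw j c => ⟨(hXent w hw j c).1, (hXent w hw j c).2.trans (hAm (i + 1) hi)⟩) hAm1 hτ hτ2 hex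
    (hm i hi)
  obtain ⟨Q, hQ1, hQ2, hQ3⟩ := hc V G n m β d U σ (Bv G ρ σ i φ) (fun v => M v (k v)) hσ hUd
    (fun v hv j => (hM v hv).2 (k v) j) hk1 (fun v hv => (hLoc v hv).2.1) (fun v hv => (hLoc v hv).2.2.1)
    (fun v hv => (hLoc v hv).2.2.2)
  refine ⟨fun v => if v ∈ U then Q v else φ v, newW G σ M k U W, ?_, ?_, ?_, ?_, ?_, ?_⟩
  · intro u v huv hu hv j
    change (if v ∈ U then Q v else φ v) j ≠ σ u v ((if u ∈ U then Q u else φ u) j)
    by_cases hu' : u ∈ U <;> by_cases hv' : v ∈ U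
    · rw [if_pos hu', if_pos hv']
      exact hQ2 u hu' v hv' huv j
    · rw [if_pos hu', if_neg hv']
      have h1 : (ρ v : ℕ) < i := by
        rw [memU] at hv'
        omega
      have h2 := hQ1 u hu' j v huv.symm h1
      rw [hσ u v huv] at h2
      intro h3
      apply h2
      rw [h3]
      simp
    · rw [if_neg hu', if_pos hv']
      have h1 : (ρ u : ℕ) < i := by
        rw [memU] at hu'
        omega
      exact (hQ1 v hv' j u huv h1).symm
    · rw [if_neg hu', if_neg hv']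
      rw [memU] at hu' hv'
      exact st.pr u v huv (by omega) (by omega) j
  · intro w hw j c
    have hwX : w ∈ X := (memX w).2 (by omega)
    have h1 := hXent w hwX j c
    have h2 := prod_bd hLi (U.filter fun u => G.Adj w u) (hUd w) M k (fun u => (σ u w)⁻¹) j c
    unfold newW
    exact ⟨mul_nonneg h1.1 h2.1, le_trans (mul_le_mul_of_nonneg_left h2.2 h1.1) h1.2⟩
  · intro w hw j
    have hwX : w ∈ X := (memX w).2 (by omega)
    have h1 := (hk2 w hwX).1 j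
    have h2 := st.row w (by omega) j
    push_cast
    calc |rowS (newW G σ M k U W w) j - n|
        = |(rowS (newW G σ M k U W w) j - rowS (W w) j) + (rowS (W w) j - n)| := by ring_nf
      _ ≤ _ := abs_add_le _ _
      _ ≤ τ + i * τ := add_le_add h1 h2
      _ = (i + 1) * τ := by ring
  · intro w hw j
    have hwX : w ∈ X := (memX w).2 (by omega)
    have h1 := (hk2 w hwX).2.1 j
    have h2 := st.col w (by omega) j
    push_cast
    calc |colS (newW G σ M k U W w) j - n|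
        = |(colS (newW G σ M k U W w) j - colS (W w) j) + (colS (W w) j - n)| := by ring_nf
      _ ≤ _ := abs_add_le _ _
      _ ≤ τ + i * τ := add_le_add h1 h2
      _ = (i + 1) * τ := by ring
  · intro w hw j j' hjj
    have hwX : w ∈ X := (memX w).2 (by omega)
    have h1 := (hk2 w hwX).2.2 j j' hjj
    have h2 := st.cd w (by omega) j j' hjj
    push_cast
    linarith
  · intro w hw
    have hwX : w ∈ X := (memX w).2 (by omega)
    have hold := st.bad w (by omega)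
    set N : Finset V := U.filter fun u => G.Adj w u with hN
    have hsub : {p : Fin n × Fin n | newW G σ M k U W w p.1 p.2 ≠ 0 ∧
        ∃ u, G.Adj u w ∧ (ρ u : ℕ) < i + 1 ∧ σ u w ((if u ∈ U then Q u else φ u) p.1) = p.2} ⊆
        {p : Fin n × Fin n | W w p.1 p.2 ≠ 0 ∧
          ∃ u, G.Adj u w ∧ (ρ u : ℕ) < i ∧ σ u w (φ u p.1) = p.2} ∪
        ⋃ u ∈ N, (fun j => (j, σ u w (Q u j))) '' {j | Q u j ≠ M u (k u) j} := by
      rintro ⟨j, c⟩ ⟨hp1, u, hu1, hu2, hu3⟩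
      have hp1' : W w j c * ∏ u ∈ N, fac (M u) (k u) (σ u w)⁻¹ j c ≠ 0 := hp1
      have hne := mul_ne_zero_iff.1 hp1'
      by_cases hu' : u ∈ U
      · right
        rw [if_pos hu'] at hu3
        have huN : u ∈ N := by
          rw [hN, Finset.mem_filter]
          exact ⟨hu', hu1.symm⟩
        have h1 := fac_ne (Finset.prod_ne_zero_iff.1 hne.2 u huN)
        simp only [Set.mem_iUnion]
        refine ⟨u, huN, j, ?_, ?_⟩
        · intro h2
          apply h1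
          have hu4 : σ u w (Q u j) = c := hu3
          rw [← hu4, ← h2]
          simp
        · exact Prod.ext rfl hu3
      · left
        rw [if_neg hu'] at hu3
        rw [memU] at hu'
        exact ⟨hne.1, u, hu1, by omega, hu3⟩
    have hbi : (⋃ u ∈ N, (fun j => (j, σ u w (Q u j))) '' {j | Q u j ≠ M u (k u) j}).ncard ≤
        3 * m * N.card := by
      have h1 : ∀ N' : Finset V, N' ⊆ U →
          (⋃ u ∈ N', (fun j => (j, σ u w (Q u j))) '' {j | Q u j ≠ M u (k u) j}).ncard ≤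
            3 * m * N'.card := by
        intro N'
        induction N' using Finset.induction_on with
        | empty => intro _; simp
        | insert a s has ih =>
          intro hsU
          rw [Finset.set_biUnion_insert, Finset.card_insert_of_notMem has]
          have h2 := ih fun x hx => hsU (Finset.mem_insert_of_mem hx)
          have h3 := hQ3 a (hsU (Finset.mem_insert_self _ _))
          have h4 : ((fun j => (j, σ a w (Q a j))) '' {j | Q a j ≠ M a (k a) j}).ncard ≤ 3 * m :=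
            (Set.ncard_image_le (Set.toFinite _)).trans h3
          calc _ ≤ _ := Set.ncard_union_le _ _
            _ ≤ 3 * m + 3 * m * s.card := Nat.add_le_add h4 h2
            _ = 3 * m * (s.card + 1) := by ring
      exact h1 N (Finset.filter_subset _ _)
    have hcount : {u : V | G.Adj u w ∧ (ρ u : ℕ) < i + 1}.ncard =
        {u : V | G.Adj u w ∧ (ρ u : ℕ) < i}.ncard + N.card := by
      have h1 : {u : V | G.Adj u w ∧ (ρ u : ℕ) < i + 1} = {u : V | G.Adj u w ∧ (ρ u : ℕ) < i} ∪ (N : Set V) := by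
        ext u
        rw [Set.mem_union, Finset.mem_coe, hN, Finset.mem_filter, memU]
        constructor
        · rintro ⟨h2, h3⟩
          by_cases h4 : (ρ u : ℕ) < i
          · exact Or.inl ⟨h2, h4⟩
          · exact Or.inr ⟨by omega, h2.symm⟩
        · rintro (⟨h2, h3⟩ | ⟨h2, h3⟩)
          · exact ⟨h2, by omega⟩
          · exact ⟨h3.symm, by omega⟩
      have h2 : Disjoint {u : V | G.Adj u w ∧ (ρ u : ℕ) < i} (N : Set V) := by
        rw [Set.disjoint_left]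
        rintro u ⟨_, h3⟩ h4
        rw [Finset.mem_coe, hN, Finset.mem_filter, memU] at h4
        omega
      rw [h1, Set.ncard_union_eq h2 (Set.toFinite _) (Set.toFinite _), Set.ncard_coe_finset]
    rw [hcount]
    calc _ ≤ _ := Set.ncard_le_ncard hsub (Set.toFinite _)
      _ ≤ _ := Set.ncard_union_le _ _
      _ ≤ 3 * m * {u : V | G.Adj u w ∧ (ρ u : ℕ) < i}.ncard + 3 * m * N.card := Nat.add_le_add hold hbi
      _ = _ := by ring

theorem run2 (hs : S_STAGE) (hc : S_CLASS) : S_RUN2 := by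
  intro V _ _ G _ n K D d m β ρ σ L A Am τ η hσ hD hdeg hcl hA0 hL hA hAm hτ hτ2 hex hm hKτ hloc
  have key : ∀ i, i ≤ K → ∃ (φ : V → Perm (Fin n)) (W : V → Mx n), St G m ρ σ A τ i φ W := by
    intro i
    induction i with
    | zero => exact fun _ => ⟨_, _, st_zero G m ρ σ A τ hA0⟩
    | succ i ih =>
      intro hi
      obtain ⟨φ, W, st⟩ := ih (by omega)
      exact step hs hc G n K D d m β ρ σ L A Am τ η hσ hD hdeg hcl hA0 hL hA hAm hτ hτ2 hex hm hKτ hloc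
        i (by omega) φ W st
  obtain ⟨φ, W, st⟩ := key K le_rfl
  exact ⟨φ, fun u v huv i => st.pr u v huv (ρ u).2 (ρ v).2 i⟩

end Pool.Agent.H501.AG
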